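import Mathlib
import Pool.Agent.H670.Icc.R1
import Pool.Agent.H670.Icc.Gap

/-!
# The feasible sets of `K_{2n}`, `K_{m,n}` and `Q_n` are gap-free (MP_2596c2_co, Q1)

Outline of the proof (the colours at a vertex form an arc of `Z/t`).

* `K_N`, `N = 2n`. For `t ≥ 2N - 3` two arcs of `N - 1` residues that meet do so in one arc, hence an
  interval cyclic colouring lifts to a periodic schedule of integers (`K1`). Counting the games across the
  cuts given by the schedule (`K2`), and a potential argument (`K3a`, `K3b`), give `t ≤ 2N - 4`, or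
  `t = 2N - 3` and `3 ∣ N`. Conversely all `t` from `N` to `2N - 5`, and `2N - 4` if `3 ∣ N`, are
  feasible: split the vertices into two or three even groups with a common first colour in each group,
  prescribe the numbers of cross edges of every colour, and detach (Hilton's outline method, proved from
  Hall's theorem in `D1`, `D2`, `D3`); `K_8` with 11 colours is explicit.
* `K_{m,n}`. The colouring `i + j mod t` settles `max(m,n) ≤ t ≤ m + n - 1`, and `t ≥ m + n + 1` is
  impossible (`B1`, `B2`).
* `Q_n`. For `t > 4(n - 1)` the colouring lifts to an integer interval colouring, as all closed walks are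
  generated by 4-cycles; it can be reduced modulo any smaller number from `n` on (`Q1`, `Q2a`, `Q2b`).
  The numbers from `n` to `n(n+1)/2` have explicit colourings (`Q3`); the cases `Q_3` with 7 colours and
  `Q_4` with 11 colours are explicit.
-/

namespace Pool.Agent.Results.MP_2596c2_co.GapFree

open _root_.MP_2596c2_co

/-- a set of integers is gap-free if it contains every integer between two of its elements -/
def IsGapFree (S : Set ℕ) : Prop := ∀ a b c, a < b → b < c → a ∈ S → c ∈ S → b ∈ S

/-- For all `m, n ≥ 1`, the feasible sets `F(K_{2n})`, `F(K_{m,n})` and `F(Q_n)` of interval cyclic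
edge-colourings are gap-free. -/
theorem result : ∀ m n : ℕ, 1 ≤ m → 1 ≤ n →
    IsGapFree (feasible (⊤ : SimpleGraph (Fin (2 * n)))) ∧
    IsGapFree (feasible (completeBipartiteGraph (Fin m) (Fin n))) ∧
    IsGapFree (feasible (cube n)) := by
  intro m n hm hn
  refine ⟨?_, ?_, ?_⟩
  · intro a b c hab hbc ha hc
    rw [complete_iff] at ha hc ⊢
    exact ⟨by omega, ICC670.kfeas_gap n a b c hn hab hbc ha.1 ha.2 hc.2⟩
  · intro a b c hab hbc ha hc
    rw [bipartite_iff] at ha hc ⊢
    exact ⟨by omega, ICC670.bfeas_gap (fun m n t h1 h2 h3 => ICC670.bfeas_upper m n t h1 h2 h3)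
      m n a b c hm hn hab hbc ha.1 ha.2 hc.2⟩
  · intro a b c hab hbc ha hc
    rw [cube_iff] at ha hc ⊢
    exact ⟨by omega, ICC670.qfeas_gap n a b c hn hab hbc ha.1 ha.2 hc.2⟩

end Pool.Agent.Results.MP_2596c2_co.GapFree
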